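import Pool.Agent.Q113.XM.Stm
import Pool.Agent.W735.SAM.DI3

/-! Project XM (owner helper113), job DI3X: vertices of nearly full degree (proof of `W735.SAM.DI3`). -/

set_option autoImplicit false

namespace Pool.Agent.Q257.XM

open Finset Pool.Agent.W890.SF Pool.Agent.Q113.XM Pool.Agent.W735.SAM.DI3

theorem t_DI3X : S_DI3X := by
  intro k hk x0 γ hx0 hγ
  set j := k - 1 with hj
  set c : ℝ := (1 / 4) ^ j / (j.factorial : ℝ) with hc
  have hc0 : 0 < c := by rw [hc]; positivity
  have hk0 : (0 : ℝ) < k := by exact_mod_cast (by omega : 0 < k)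
  refine ⟨γ ^ 2 * c / (γ + 2 * k), by positivity, 4 * k + 4, ?_⟩
  intro n hn F hF s hs1 hs2 hFc S hS1 hS2
  set g : ℝ := γ ^ 2 * c / (γ + 2 * k) with hg
  have hg0 : 0 < g := by rw [hg]; positivity
  have hkj : k = j + 1 := by omega
  have hcount := counting k (by omega) F hF S
  have hsn : 2 * s ≤ n := hs2
  have hSn : S.card ≤ n := by simpa using card_le_univ S
  have hn0 : (0 : ℝ) < n := by exact_mod_cast (by omega : 0 < n)
  have hnj : (0 : ℝ) < (n : ℝ) ^ j := by positivity
  -- lower bounds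
  have l1 : c * (n : ℝ) ^ j ≤ (((n - s).choose j : ℕ) : ℝ) := by
    have := chlow n j (n - s) (by omega)
    refine le_trans (le_of_eq ?_) this
    rw [hc, div_pow, div_pow, one_pow]; field_simp
  have l2 : c * (n : ℝ) ^ j ≤ (((n - 1).choose (k - 1) : ℕ) : ℝ) := by
    have := chlow n j (n - 1) (by omega)
    refine le_trans (le_of_eq ?_) this
    rw [hc, div_pow, div_pow, one_pow]; field_simp
  have hnk : (n : ℝ) ^ k = n * (n : ℝ) ^ j := by rw [hkj, pow_succ]; ring
  -- the number of edges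
  have hFc' : ((n.choose k : ℕ) : ℝ) - (((n - s).choose k : ℕ) : ℝ) ≤ (F.card : ℝ) := by
    have : n.choose k ≤ F.card + (n - s).choose k := by omega
    have h' : ((n.choose k : ℕ) : ℝ) ≤ (F.card : ℝ) + (((n - s).choose k : ℕ) : ℝ) := by exact_mod_cast this
    linarith
  set D : ℝ := (((n - s).choose k : ℕ) : ℝ) - (((n - S.card).choose k : ℕ) : ℝ) with hD
  have hmain : ∑ v ∈ S, ((((n - 1).choose (k - 1) : ℕ) : ℝ) - (dg F v : ℝ)) ≤
      k * (D + g * (n : ℝ) ^ k) := by
    refine hcount.trans (mul_le_mul_of_nonneg_left ?_ hk0.le)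
    linarith
  have hMv : ∀ v : Fin n, (0 : ℝ) ≤ (((n - 1).choose (k - 1) : ℕ) : ℝ) - (dg F v : ℝ) := by
    intro v
    have h := card_mem (n := n) k (by omega) v
    have h2 : dg F v ≤ (n - 1).choose (k - 1) := by
      rw [← h, dg]
      apply card_le_card
      intro e he
      rw [mem_filter] at he ⊢
      refine ⟨?_, he.2⟩
      rw [mem_powersetCard]
      exact ⟨subset_univ _, hF e he.1⟩
    have : (dg F v : ℝ) ≤ (((n - 1).choose (k - 1) : ℕ) : ℝ) := by exact_mod_cast h2
    linarith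
  have hsum0 : (0 : ℝ) ≤ ∑ v ∈ S, ((((n - 1).choose (k - 1) : ℕ) : ℝ) - (dg F v : ℝ)) :=
    sum_nonneg fun v _ => hMv v
  have hDlow : 0 ≤ D + g * (n : ℝ) ^ k := by
    by_contra hcon
    push Not at hcon
    have := mul_neg_of_pos_of_neg hk0 hcon
    linarith
  -- D ≤ g n^k and S.card ≥ s - g n / c
  have hDS : D ≤ g * (n : ℝ) ^ k ∧ (s : ℝ) - g * n / c ≤ (S.card : ℝ) := by
    rcases le_total S.card s with h | h
    · have ht := (tele j (n - s) (n - S.card) (by omega)).1
      rw [← hkj] at ht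
      have hd : D ≤ 0 := by
        have : (n - s).choose k ≤ (n - S.card).choose k := Nat.choose_le_choose k (by omega)
        have h' : (((n - s).choose k : ℕ) : ℝ) ≤ (((n - S.card).choose k : ℕ) : ℝ) := by exact_mod_cast this
        rw [hD]; linarith
      refine ⟨hd.trans (by positivity), ?_⟩
      have hdiff : (((n - S.card : ℕ) : ℝ) - ((n - s : ℕ) : ℝ)) = (s : ℝ) - S.card := by
        rw [Nat.cast_sub hSn, Nat.cast_sub (by omega)]; ring
      rw [hdiff] at ht
      have h0 : (0 : ℝ) ≤ (s : ℝ) - S.card := by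
        have : (S.card : ℝ) ≤ s := by exact_mod_cast h
        linarith
      have h1 : ((s : ℝ) - S.card) * (c * (n : ℝ) ^ j) ≤ g * (n * (n : ℝ) ^ j) := by
        calc ((s : ℝ) - S.card) * (c * (n : ℝ) ^ j) ≤ ((s : ℝ) - S.card) * (((n - s).choose j : ℕ) : ℝ) :=
              mul_le_mul_of_nonneg_left l1 h0
          _ ≤ -D := by rw [hD]; linarith
          _ ≤ g * (n * (n : ℝ) ^ j) := by rw [← hnk]; linarith
      have h2 : ((s : ℝ) - S.card) * c ≤ g * n := by
        have : (((s : ℝ) - S.card) * c) * (n : ℝ) ^ j ≤ (g * n) * (n : ℝ) ^ j := by nlinarith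
        exact le_of_mul_le_mul_right this hnj
      have h3 : (s : ℝ) - S.card ≤ g * n / c := by
        rw [le_div_iff₀ hc0]; exact h2
      linarith
    · have ht := (tele j (n - S.card) (n - s) (by omega)).2
      rw [← hkj] at ht
      have hdiff : (((n - s : ℕ) : ℝ) - ((n - S.card : ℕ) : ℝ)) = (S.card : ℝ) - s := by
        rw [Nat.cast_sub hSn, Nat.cast_sub (by omega)]; ring
      rw [hdiff] at ht
      have hub : (((n - s).choose j : ℕ) : ℝ) ≤ (n : ℝ) ^ j := by
        have h1 : (n - s).choose j ≤ (n - s) ^ j := Nat.choose_le_pow _ _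
        have h2 : (n - s) ^ j ≤ n ^ j := Nat.pow_le_pow_left (by omega) j
        exact_mod_cast h1.trans h2
      have h0 : (0 : ℝ) ≤ (S.card : ℝ) - s := by
        have : (s : ℝ) ≤ S.card := by exact_mod_cast h
        linarith
      constructor
      · calc D ≤ ((S.card : ℝ) - s) * (((n - s).choose j : ℕ) : ℝ) := by rw [hD]; linarith
          _ ≤ (g * n) * (n : ℝ) ^ j := by
            apply mul_le_mul (by linarith) hub (by positivity) (by positivity)
          _ = g * (n : ℝ) ^ k := by rw [hnk]; ring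
      · have : (0 : ℝ) ≤ g * n / c := by positivity
        linarith
  obtain ⟨hD1, hS3⟩ := hDS
  have htot : ∑ v ∈ S, ((((n - 1).choose (k - 1) : ℕ) : ℝ) - (dg F v : ℝ)) ≤ 2 * k * g * (n : ℝ) ^ k := by
    refine hmain.trans ?_
    have : D + g * (n : ℝ) ^ k ≤ 2 * g * (n : ℝ) ^ k := by linarith
    have := mul_le_mul_of_nonneg_left this hk0.le
    linarith
  -- bad vertices
  set B := S.filter (fun v => ¬ (1 - γ) * (((n - 1).choose (k - 1) : ℕ) : ℝ) ≤ (dg F v : ℝ)) with hB
  have hBc : (B.card : ℝ) * (γ * (((n - 1).choose (k - 1) : ℕ) : ℝ)) ≤ 2 * k * g * (n : ℝ) ^ k := by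
    refine le_trans ?_ htot
    calc (B.card : ℝ) * (γ * (((n - 1).choose (k - 1) : ℕ) : ℝ))
        = ∑ v ∈ B, (γ * (((n - 1).choose (k - 1) : ℕ) : ℝ)) := by rw [sum_const, nsmul_eq_mul]
      _ ≤ ∑ v ∈ B, ((((n - 1).choose (k - 1) : ℕ) : ℝ) - (dg F v : ℝ)) := by
        apply sum_le_sum
        intro v hv
        have := (mem_filter.1 hv).2
        push Not at this
        linarith
      _ ≤ _ := sum_le_sum_of_subset_of_nonneg (filter_subset _ _) fun v _ _ => hMv v
  have hBc2 : (B.card : ℝ) ≤ 2 * k * g * n / (γ * c) := by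
    rw [le_div_iff₀ (by positivity)]
    have h1 : (B.card : ℝ) * (γ * (c * (n : ℝ) ^ j)) ≤ 2 * k * g * (n * (n : ℝ) ^ j) := by
      rw [← hnk]
      refine le_trans ?_ hBc
      apply mul_le_mul_of_nonneg_left _ (Nat.cast_nonneg _)
      exact mul_le_mul_of_nonneg_left l2 hγ.le
    have : ((B.card : ℝ) * (γ * c)) * (n : ℝ) ^ j ≤ (2 * k * g * n) * (n : ℝ) ^ j := by nlinarith
    exact le_of_mul_le_mul_right this hnj
  have hfin : (S.card : ℝ) ≤ ((univ.filter (fun v : Fin n =>
      (1 - γ) * (((n - 1).choose (k - 1) : ℕ) : ℝ) ≤ (dg F v : ℝ))).card : ℝ) + (B.card : ℝ) := by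
    have h1 := Finset.card_filter_add_card_filter_not (s := S)
      (fun v : Fin n => (1 - γ) * (((n - 1).choose (k - 1) : ℕ) : ℝ) ≤ (dg F v : ℝ))
    have h2 : (S.filter (fun v : Fin n => (1 - γ) * (((n - 1).choose (k - 1) : ℕ) : ℝ) ≤ (dg F v : ℝ))).card ≤
        (univ.filter (fun v : Fin n => (1 - γ) * (((n - 1).choose (k - 1) : ℕ) : ℝ) ≤ (dg F v : ℝ))).card :=
      card_le_card (filter_subset_filter _ (subset_univ _))
    have : S.card ≤ (univ.filter (fun v : Fin n =>
      (1 - γ) * (((n - 1).choose (k - 1) : ℕ) : ℝ) ≤ (dg F v : ℝ))).card + B.card := by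
      rw [← h1]; exact Nat.add_le_add_right h2 _
    exact_mod_cast this
  have hg2 : g * (γ + 2 * k) = γ ^ 2 * c := by
    have hne : γ + 2 * (k : ℝ) ≠ 0 := by positivity
    rw [hg]; exact div_mul_cancel₀ _ hne
  clear_value g c
  have hgs : g * n / c + 2 * k * g * n / (γ * c) = γ * n := by
    have e1 : g * n / c + 2 * k * g * n / (γ * c) = (g * (γ + 2 * k)) * n / (γ * c) := by
      field_simp
    rw [e1, hg2]; field_simp
  linarith

end Pool.Agent.Q257.XM
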