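import Pool.Agent.Q113.XM.Stm
import Pool.Agent.W395.SAM.Emc

/-! Project XM (owner helper113), job SFN: the final step on the star side (proof of `W395.SAM.emc`). -/

set_option autoImplicit false

namespace Pool.Agent.Q257.XM

open Finset Pool.Agent.W890.SF Pool.Agent.Q113.XM

theorem t_SFN : S_BDE → S_EXT → S_SFN := by
  intro h1 h2 k hk ξ hξ0
  have hk0 : (0 : ℝ) < k := by exact_mod_cast (by omega : 0 < k)
  have hk2 : (2 : ℝ) ≤ k := by exact_mod_cast hk
  have hk3 : (0 : ℝ) < (k : ℝ) ^ 3 := by positivity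
  obtain ⟨δ, hδ, n2, H2⟩ := h2 k hk ξ hξ0
  obtain ⟨γ, hγ⟩ : ∃ γ : ℝ, γ = min δ (1 / (8 * (k : ℝ) ^ 3)) := ⟨_, rfl⟩
  have hγ0 : 0 < γ := by rw [hγ]; exact lt_min hδ (by positivity)
  have hγ1 : γ ≤ δ := by rw [hγ]; exact min_le_left _ _
  have hγ2 : γ ≤ 1 / (8 * (k : ℝ) ^ 3) := by rw [hγ]; exact min_le_right _ _
  refine ⟨γ, hγ0, max (8 * k ^ 3) n2, ?_⟩
  intro n hn F hF s hks hA hC
  have m1 : 8 * k ^ 3 ≤ n := (le_max_left _ _).trans hn
  have m3 : n2 ≤ n := (le_max_right _ _).trans hn
  have m1' : 8 * (k : ℝ) ^ 3 ≤ n := by exact_mod_cast m1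
  have hs0 : (0 : ℝ) ≤ s := Nat.cast_nonneg s
  by_contra hM
  obtain ⟨A, hAdef⟩ : ∃ A : Finset (Fin n), A = univ.filter (fun v : Fin n =>
      (1 - γ) * (((n - 1).choose (k - 1) : ℕ) : ℝ) ≤ (dg F v : ℝ)) := ⟨_, rfl⟩
  rw [← hAdef] at hA
  have hdeg : ∀ v ∈ A, (1 - δ) * (((n - 1).choose (k - 1) : ℕ) : ℝ) ≤ (dg F v : ℝ) := by
    intro v hv
    rw [hAdef, mem_filter] at hv
    refine le_trans (mul_le_mul_of_nonneg_right ?_ (Nat.cast_nonneg _)) hv.2
    linarith
  by_cases hAs : s + 1 ≤ A.card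
  · obtain ⟨A', hA', hAc⟩ := exists_subset_card_eq hAs
    have h4 := H2 (Fin n) (by rw [Fintype.card_fin]; exact m3) F hF A'
      (by rw [Fintype.card_fin]; exact fun v hv => hdeg v (hA' hv)) ∅ (empty_subset _)
      (fun e he => absurd he (notMem_empty _)) (fun e he => absurd he (notMem_empty _))
      (by
        rw [Fintype.card_fin, hAc, card_empty]
        push_cast
        rw [add_zero]
        exact hks)
    rw [hAc, card_empty, add_zero] at h4
    exact hM h4
  push Not at hAs
  obtain ⟨b, hb⟩ : ∃ b : ℕ, A.card + b = s := ⟨s - A.card, by omega⟩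
  have hbr : (A.card : ℝ) + b = s := by exact_mod_cast hb
  have hbn : (b : ℝ) ≤ 1 / (8 * (k : ℝ) ^ 3) * n := by
    have : γ * n ≤ 1 / (8 * (k : ℝ) ^ 3) * n := mul_le_mul_of_nonneg_right hγ2 (Nat.cast_nonneg n)
    linarith
  have hs2 : 2 * s ≤ n := by
    have e1 : 2 * (s : ℝ) ≤ n := by nlinarith [mul_nonneg hξ0.le (Nat.cast_nonneg (α := ℝ) n)]
    exact_mod_cast e1
  have hUc : (univ \ A).card = n - A.card := by
    rw [card_sdiff_of_subset (subset_univ _), card_univ, Fintype.card_fin]
  have hbig : 2 * k ^ 3 * (b + 1) ≤ (univ \ A).card := by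
    have e0 : A.card ≤ s := by omega
    have e1 : 2 * (k : ℝ) ^ 3 * (b + 1) ≤ n / 2 := by
      have e2 : (b : ℝ) * (8 * (k : ℝ) ^ 3) ≤ n := by
        calc (b : ℝ) * (8 * (k : ℝ) ^ 3) ≤ 1 / (8 * (k : ℝ) ^ 3) * n * (8 * (k : ℝ) ^ 3) := by
              gcongr
          _ = (n : ℝ) := by field_simp
      nlinarith
    have e3 : 2 * (2 * k ^ 3 * (b + 1)) ≤ n := by
      have : 2 * (2 * (k : ℝ) ^ 3 * (b + 1)) ≤ n := by linarith
      exact_mod_cast this
    rw [hUc]
    omega
  by_cases hF' : (univ \ A).card.choose k - ((univ \ A).card - b).choose k <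
      (F.filter (fun e => Disjoint e A)).card
  · obtain ⟨M0, hM0, hM1, hM2⟩ := h1 k (by omega) (Fin n) (univ \ A)
      (F.filter (fun e => Disjoint e A)) b (fun e he => by
        rw [mem_filter] at he
        refine ⟨?_, hF e he.1⟩
        intro v hv
        rw [mem_sdiff]
        exact ⟨mem_univ _, fun hvA => (disjoint_left.1 he.2 hv hvA)⟩) hbig hF'
    have h4 := H2 (Fin n) (by rw [Fintype.card_fin]; exact m3) F hF A
      (by rw [Fintype.card_fin]; exact hdeg) M0 (hM0.trans (filter_subset _ _)) hM1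
      (fun e he => (mem_filter.1 (hM0 he)).2)
      (by
        rw [Fintype.card_fin, hM2]
        push_cast
        rw [← add_assoc, hbr]
        exact hks)
    rw [hM2, ← add_assoc, hb] at h4
    exact hM h4
  push Not at hF'
  have hsub : (univ \ A).card - b = n - s := by rw [hUc]; omega
  rw [hsub] at hF'
  -- counting the edges which meet A
  have hcount : (F.filter (fun e => ¬ Disjoint e A)).card + (univ \ A).card.choose k ≤
      n.choose k := by
    rw [← card_powersetCard k (univ \ A)]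
    have hn' : n.choose k = (powersetCard k (univ : Finset (Fin n))).card := by
      rw [card_powersetCard, card_univ, Fintype.card_fin]
    rw [hn', ← card_union_of_disjoint]
    · apply card_le_card
      intro e he
      rw [mem_union, mem_filter, mem_powersetCard] at he
      rw [mem_powersetCard]
      rcases he with he | he
      · exact ⟨subset_univ _, hF e he.1⟩
      · exact ⟨subset_univ _, he.2⟩
    · rw [disjoint_left]
      intro e he he'
      rw [mem_filter] at he
      rw [mem_powersetCard] at he'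
      apply he.2
      rw [disjoint_left]
      intro v hv hvA
      exact (mem_sdiff.1 (he'.1 hv)).2 hvA
  have hsplit := card_filter_add_card_filter_not (s := F) (fun e => Disjoint e A)
  have hle : (n - s).choose k ≤ (univ \ A).card.choose k := by
    apply Nat.choose_le_choose
    rw [hUc]
    omega
  omega

end Pool.Agent.Q257.XM
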