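import Pool.Agent.Q113.XM.Stm

/-! Project XM (owner helper113), job STE: the star side for all `s ≤ (c - e0) n`. -/

set_option autoImplicit false

namespace Pool.Agent.Q257.XM

open Finset Pool.Agent.W890.SF Pool.Agent.Q113.XM

theorem t_STE : S_EMC → S_CRF → S_DIS → S_SFN → S_STE := by
  intro hE _ hD hS k hk hL c hc e0 he0
  have hk2 : 2 ≤ k := by omega
  have hk0 : (0 : ℝ) < k := by exact_mod_cast (by omega : 0 < k)
  obtain ⟨nE, hE⟩ := hE k hk2
  obtain ⟨γ, hγ, nS, hS⟩ := hS k hk2 (k * e0 / 2) (by positivity)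
  obtain ⟨nD, hD⟩ := hD k hk hL c hc (40 / (40 * (k : ℝ) + 39)) e0 γ (by positivity) he0 hγ
  obtain ⟨n1, hn1⟩ := exists_nat_ge (2 / e0)
  refine ⟨max (max nE nS) (max nD n1), ?_⟩
  intro n hn F hF s hs hks hC
  have m1 : nE ≤ n := ((le_max_left _ _).trans (le_max_left _ _)).trans hn
  have m2 : nS ≤ n := ((le_max_right _ _).trans (le_max_left _ _)).trans hn
  have m3 : nD ≤ n := ((le_max_left _ _).trans (le_max_right _ _)).trans hn
  have m4 : n1 ≤ n := ((le_max_right _ _).trans (le_max_right _ _)).trans hn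
  have hC1 : n.choose k - (n - s).choose k < F.card := lt_of_le_of_lt (le_max_left _ _) hC
  by_cases hsm : (40 * k + 39) * s ≤ 40 * n
  · exact hE n m1 s hsm F hF hC1
  push Not at hsm
  by_contra hM
  have hx0 : 40 / (40 * (k : ℝ) + 39) * n ≤ s := by
    have h1 : (40 * (n : ℝ)) ≤ (40 * k + 39) * s := by exact_mod_cast hsm.le
    rw [div_mul_eq_mul_div, div_le_iff₀ (by positivity)]
    linarith
  have hA := hD n m3 F hF s hx0 hs hks hM hC.le
  have hn2 : 2 / e0 ≤ (n : ℝ) := hn1.trans (by exact_mod_cast m4)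
  have hn3 : 2 ≤ e0 * n := by
    rw [div_le_iff₀ he0] at hn2
    linarith
  have hkc : (k : ℝ) * c < 1 := hc.2.1
  have hn0 : (0 : ℝ) ≤ n := Nat.cast_nonneg n
  have hk3 : (k : ℝ) * (s + 1) ≤ (1 - k * e0 / 2) * n := by
    have h1 : (k : ℝ) * s ≤ k * ((c - e0) * n) := mul_le_mul_of_nonneg_left hs hk0.le
    have h2 : (k : ℝ) * c * n ≤ 1 * n := mul_le_mul_of_nonneg_right hkc.le hn0
    have h3 : (k : ℝ) * 2 ≤ k * (e0 * n) := mul_le_mul_of_nonneg_left hn3 hk0.le
    nlinarith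
  exact hM (hS n m2 F hF s hk3 hA hC1)

end Pool.Agent.Q257.XM
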