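import Pool.Agent.Q113.XM.Stm

/-! Project XM (owner helper113), job XMC: assembly of the main theorem. -/

set_option autoImplicit false

namespace Pool.Agent.Q257.XM

open Finset Pool.Agent.W890.SF Pool.Agent.Q113.XM

theorem t_XMC : S_CRF → S_STE → S_CLQ → S_NCP → S_CLS → S_XMC := by
  intro hCR hST hCQ hNC hCL k hk hL c hc ε hε
  have hk2 : 2 ≤ k := by omega
  obtain ⟨_, _, h2kc⟩ := hCR k hk2 c hc
  obtain ⟨n1, hST⟩ := hST k hk hL c hc ε hε
  obtain ⟨γ, hγ, n2, hCQ⟩ := hCQ k hk c hc.1 h2kc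
  obtain ⟨ξ, hξ, n3, hNC⟩ := hNC k hk2 γ hγ
  obtain ⟨n4, hCL⟩ := hCL k hk2 hL c hc ε ξ γ hε hξ hγ
  refine ⟨max (max n1 n2) (max n3 n4), ?_⟩
  intro n hn s hks hsε F hF hC
  have m1 : n1 ≤ n := ((le_max_left _ _).trans (le_max_left _ _)).trans hn
  have m2 : n2 ≤ n := ((le_max_right _ _).trans (le_max_left _ _)).trans hn
  have m3 : n3 ≤ n := ((le_max_left _ _).trans (le_max_right _ _)).trans hn
  have m4 : n4 ≤ n := ((le_max_right _ _).trans (le_max_right _ _)).trans hn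
  have hn0 : (0 : ℝ) ≤ n := Nat.cast_nonneg n
  have hεn : 0 ≤ ε * n := by positivity
  rcases le_abs.1 hsε with h | h
  · -- clique side
    by_contra hM
    have hcs : c * n ≤ (s : ℝ) := by linarith
    have hC2 : (k * (s + 1) - 1).choose k < F.card := lt_of_le_of_lt (le_max_right _ _) hC
    obtain ⟨T, hT1, hT2⟩ : ∃ T : Finset (Fin n), (k : ℝ) * s - γ * n ≤ (T.card : ℝ) ∧
        ∀ v ∈ T, (ms k F T v : ℝ) ≤ γ * (n : ℝ) ^ (k - 1) := by
      rcases le_total ((1 - ξ) * n) ((k : ℝ) * s) with h1 | h1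
      · exact hNC n m3 F hF s hks h1 hC2.le
      · exact hCL n m4 F hF s (by linarith) h1 hks hM hC.le
    exact hM (hCQ n m2 F hF s T hcs hks hT1 hT2 hC2)
  · -- star side
    exact hST n m1 F hF s (by linarith) hks hC

end Pool.Agent.Q257.XM
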